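import Pool.Agent.SGB.Stmts

/-!
# Squad SGB, row RED (helper3): reductions, Theorem W
-/

set_option autoImplicit false

open Finset

namespace Pool.Agent.SGB.H3

open Pool.Agent.SGB

universe u

section red

variable {H : Type u} [AddCommGroup H] [Fintype H] {ι : Type} [Fintype ι]

theorem nn_pos : 0 < nn H := by
  unfold nn
  exact_mod_cast Nat.card_pos

theorem one_le_nn : 1 ≤ nn H := by
  unfold nn
  exact_mod_cast Nat.card_pos

omit [Fintype H] [Fintype ι] in
theorem kk_swap (S T : ι → AddSubgroup H) (i j : ι) : kk T S i j = kk S T i j := by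
  unfold kk
  rw [inf_comm (T i) (S j), inf_comm (T j) (S i), mul_comm]

omit [Fintype H] [Fintype ι] in
theorem tt_swap (S T : ι → AddSubgroup H) (i j : ι) : tt T S i j = tt S T i j := by
  unfold tt
  rw [mul_comm]

/-- one half of the classes -/
theorem half (hM : MNNStmt.{u}) (hP : PINStmt.{u}) (S T : ι → AddSubgroup H)
    (h : ∀ i, S i ⊓ T i = ⊥) (hc : Real.log 2 ≤ 1 / 10 ^ 11 * Real.log (nn H))
    (J₀ : Finset ι) (hJ : ∀ i ∈ J₀, cd (T i) ≤ cd (S i)) (hn : Fintype.card ι ≤ 2 * J₀.card)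
    (hι : 0 < Fintype.card ι)
    (hlt : ∑ i, ∑ j, (nn H / kk S T i j + nn H / tt S T i j) <
      (Fintype.card ι : ℝ) ^ 2 * Real.exp ((1 / 2 + 1 / 10 ^ 11) * Real.log (nn H))) : False := by
  classical
  set E : ℝ := Real.exp ((1 / 2 + 1 / 10 ^ 11) * Real.log (nn H)) with hE
  have hE0 : 0 < E := Real.exp_pos _
  have hN := nn_pos (H := H)
  have hf0 : ∀ i j, 0 ≤ nn H / kk S T i j + nn H / tt S T i j := by
    intro i j
    obtain ⟨-, -, -, -, -, -, -, h1, h2, -⟩ := hP H ι S T h i j
    have h3 : 0 < kk S T i j := by linarith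
    have h4 : 0 < tt S T i j := by linarith
    positivity
  set f : ι → ι → ℝ := fun i j => nn H / kk S T i j + nn H / tt S T i j with hf
  have hn1 : 0 < J₀.card := by omega
  set n₁ : ℝ := (J₀.card : ℝ) with hn₁
  have hn1' : 0 < n₁ := by
    rw [hn₁]
    exact_mod_cast hn1
  have hn' : (Fintype.card ι : ℝ) ≤ 2 * n₁ := by
    rw [hn₁]
    exact_mod_cast hn
  have hsum : ∑ i ∈ J₀, ∑ j ∈ J₀, f i j < 4 * n₁ ^ 2 * E := by
    have h1 : ∑ i ∈ J₀, ∑ j ∈ J₀, f i j ≤ ∑ i, ∑ j, f i j := by
      calc ∑ i ∈ J₀, ∑ j ∈ J₀, f i j ≤ ∑ i ∈ J₀, ∑ j, f i j :=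
            Finset.sum_le_sum fun i _ =>
              Finset.sum_le_sum_of_subset_of_nonneg (Finset.subset_univ _) fun j _ _ => hf0 i j
        _ ≤ ∑ i, ∑ j, f i j :=
            Finset.sum_le_sum_of_subset_of_nonneg (Finset.subset_univ _) fun i _ _ =>
              Finset.sum_nonneg fun j _ => hf0 i j
    have h2 : (Fintype.card ι : ℝ) ^ 2 * E ≤ 4 * n₁ ^ 2 * E := by
      apply mul_le_mul_of_nonneg_right _ hE0.le
      have h3 : (Fintype.card ι : ℝ) ^ 2 ≤ (2 * n₁) ^ 2 :=
        pow_le_pow_left₀ (Nat.cast_nonneg _) hn' 2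
      calc (Fintype.card ι : ℝ) ^ 2 ≤ (2 * n₁) ^ 2 := h3
        _ = 4 * n₁ ^ 2 := by ring
    exact lt_of_le_of_lt h1 (lt_of_lt_of_le hlt h2)
  set J : Finset ι := J₀.filter (fun k => ∑ l ∈ J₀, f k l ≤ 8 * n₁ * E) with hJd
  have hJsub : J ⊆ J₀ := Finset.filter_subset _ _
  set K : Finset ι := J₀.filter (fun k => ¬ ∑ l ∈ J₀, f k l ≤ 8 * n₁ * E) with hKd
  have hcard : J.card + K.card = J₀.card := by
    rw [hJd, hKd]
    exact Finset.card_filter_add_card_filter_not _
  have hK : (K.card : ℝ) * (8 * n₁ * E) ≤ ∑ i ∈ J₀, ∑ j ∈ J₀, f i j := by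
    calc (K.card : ℝ) * (8 * n₁ * E) = ∑ k ∈ K, 8 * n₁ * E := by
          rw [Finset.sum_const, nsmul_eq_mul]
      _ ≤ ∑ k ∈ K, ∑ j ∈ J₀, f k j := by
          apply Finset.sum_le_sum
          intro k hk
          have := (Finset.mem_filter.1 hk).2
          push Not at this
          exact this.le
      _ ≤ ∑ i ∈ J₀, ∑ j ∈ J₀, f i j :=
          Finset.sum_le_sum_of_subset_of_nonneg (Finset.filter_subset _ _) fun i _ _ =>
            Finset.sum_nonneg fun j _ => hf0 i j
  have hK2 : (K.card : ℝ) < n₁ / 2 := by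
    have h1 : (K.card : ℝ) * (8 * n₁ * E) < n₁ / 2 * (8 * n₁ * E) := by
      calc (K.card : ℝ) * (8 * n₁ * E) < 4 * n₁ ^ 2 * E := lt_of_le_of_lt hK hsum
        _ = n₁ / 2 * (8 * n₁ * E) := by ring
    exact lt_of_mul_lt_mul_right h1 (by positivity)
  have hJ2 : n₁ / 2 < (J.card : ℝ) := by
    have h1 : (J.card : ℝ) + K.card = n₁ := by
      rw [hn₁]
      exact_mod_cast hcard
    linarith
  have hJpos : 0 < J.card := by
    have : (0:ℝ) < (J.card : ℝ) := by linarith
    exact_mod_cast this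
  have hne : Nonempty J := by
    obtain ⟨x, hx⟩ := Finset.card_pos.1 hJpos
    exact ⟨⟨x, hx⟩⟩
  refine hM H J (fun i => S i) (fun i => T i) (fun i => h i) (fun i => hJ i (hJsub i.2)) hc ?_
  intro k
  have h1 : ∑ l : J, (nn H / kk (fun i : J => S i) (fun i : J => T i) k l +
      nn H / tt (fun i : J => S i) (fun i : J => T i) k l) = ∑ l ∈ J, f k l :=
    Finset.sum_coe_sort J (fun l => f k l)
  rw [h1, Fintype.card_coe]
  have h2 : ∑ l ∈ J, f k l ≤ ∑ l ∈ J₀, f k l :=
    Finset.sum_le_sum_of_subset_of_nonneg hJsub fun j _ _ => hf0 k j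
  have h3 : ∑ l ∈ J₀, f k l ≤ 8 * n₁ * E := (Finset.mem_filter.1 k.2).2
  have h4 : 8 * n₁ * E ≤ 16 * (J.card : ℝ) * E := by
    apply mul_le_mul_of_nonneg_right _ hE0.le
    linarith
  exact (h2.trans h3).trans h4

end red

/-- row RED -/
theorem red (hM : MNNStmt.{u}) (hP : PINStmt.{u}) : REDStmt.{u} := by
  classical
  intro H _ _ ι _ S T h
  have hN := nn_pos (H := H)
  have hN1 := one_le_nn (H := H)
  set L : ℝ := Real.log (nn H) with hL
  have hL0 : 0 ≤ L := Real.log_nonneg hN1
  have hNL : nn H = Real.exp L := (Real.exp_log hN).symm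
  have hk : ∀ i j, 0 < kk S T i j ∧ 0 < tt S T i j ∧ kk S T i j * tt S T i j ≤ nn H := by
    intro i j
    obtain ⟨-, h1, h2, -, -, -, -, h3, h4, -⟩ := hP H ι S T h i j
    exact ⟨by linarith, by linarith, h1.trans h2⟩
  by_cases hc : Real.log 2 ≤ 1 / 10 ^ 11 * L
  · by_contra hcon
    push Not at hcon
    rcases Nat.eq_zero_or_pos (Fintype.card ι) with h0 | hι
    · have := Fintype.card_eq_zero_iff.1 h0
      rw [h0, Finset.univ_eq_empty, Finset.sum_empty] at hcon
      norm_num at hcon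
    have hlt : ∑ i, ∑ j, (nn H / kk S T i j + nn H / tt S T i j) <
        (Fintype.card ι : ℝ) ^ 2 * Real.exp ((1 / 2 + 1 / 10 ^ 11) * L) := by
      have h1 : ∑ i, ∑ j, (nn H / kk S T i j + nn H / tt S T i j) =
          nn H * ∑ i, ∑ j, (1 / kk S T i j + 1 / tt S T i j) := by
        rw [Finset.mul_sum]
        refine Finset.sum_congr rfl fun i _ => ?_
        rw [Finset.mul_sum]
        refine Finset.sum_congr rfl fun j _ => ?_
        ring
      have h2 : Real.exp ((1 / 2 + 1 / 10 ^ 11) * L) =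
          nn H * Real.exp ((-1 / 2 + 1 / 10 ^ 11) * L) := by
        rw [hNL, ← Real.exp_add]
        congr 1
        ring
      rw [h1, h2]
      calc nn H * ∑ i, ∑ j, (1 / kk S T i j + 1 / tt S T i j) <
          nn H * ((Fintype.card ι : ℝ) ^ 2 * Real.exp ((-1 / 2 + 1 / 10 ^ 11) * L)) :=
            mul_lt_mul_of_pos_left hcon hN
        _ = _ := by ring
    set J₀ : Finset ι := Finset.univ.filter (fun i => cd (T i) ≤ cd (S i)) with hJ₀
    set J₁ : Finset ι := Finset.univ.filter (fun i => ¬ cd (T i) ≤ cd (S i)) with hJ₁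
    have hcard : J₀.card + J₁.card = Fintype.card ι := by
      rw [hJ₀, hJ₁, Finset.card_filter_add_card_filter_not, Finset.card_univ]
    by_cases hb : Fintype.card ι ≤ 2 * J₀.card
    · exact half hM hP S T h hc J₀ (fun i hi => (Finset.mem_filter.1 hi).2) hb hι hlt
    · have hlt' : ∑ i, ∑ j, (nn H / kk T S i j + nn H / tt T S i j) <
          (Fintype.card ι : ℝ) ^ 2 * Real.exp ((1 / 2 + 1 / 10 ^ 11) * L) := by
        have h1 : ∀ i j, nn H / kk T S i j + nn H / tt T S i j =
            nn H / kk S T i j + nn H / tt S T i j := by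
          intro i j
          rw [kk_swap, tt_swap]
        rw [Finset.sum_congr rfl fun i _ => Finset.sum_congr rfl fun j _ => h1 i j]
        exact hlt
      refine half hM hP T S (fun i => by rw [inf_comm]; exact h i) hc J₁ ?_ (by omega) hι hlt'
      intro i hi
      have := (Finset.mem_filter.1 hi).2
      push Not at this
      exact this.le
  · push Not at hc
    have hpt : ∀ i j, Real.exp ((-1 / 2 + 1 / 10 ^ 11) * L) ≤
        1 / kk S T i j + 1 / tt S T i j := by
      intro i j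
      obtain ⟨h1, h2, h3⟩ := hk i j
      have h4 : Real.exp ((-1 / 2 + 1 / 10 ^ 11) * L) ≤ 2 * Real.exp (-(L / 2)) := by
        have h5 : Real.exp (1 / 10 ^ 11 * L) ≤ 2 := by
          rw [← Real.le_log_iff_exp_le (by norm_num)]
          exact hc.le
        calc Real.exp ((-1 / 2 + 1 / 10 ^ 11) * L) =
            Real.exp (1 / 10 ^ 11 * L) * Real.exp (-(L / 2)) := by
              rw [← Real.exp_add]
              congr 1
              ring
          _ ≤ 2 * Real.exp (-(L / 2)) :=
              mul_le_mul_of_nonneg_right h5 (Real.exp_pos _).le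
      have h6 : (2 * Real.exp (-(L / 2))) ^ 2 ≤ (1 / kk S T i j + 1 / tt S T i j) ^ 2 := by
        have h7 : (2 * Real.exp (-(L / 2))) ^ 2 = 4 / nn H := by
          rw [mul_pow, ← Real.exp_nat_mul, hNL]
          have : ((2:ℕ):ℝ) * -(L / 2) = -L := by
            push_cast
            ring
          rw [this, Real.exp_neg]
          field_simp
          norm_num
        have h8 : 4 / (kk S T i j * tt S T i j) ≤ (1 / kk S T i j + 1 / tt S T i j) ^ 2 := by
          have h9 : (1 / kk S T i j + 1 / tt S T i j) ^ 2 - 4 / (kk S T i j * tt S T i j) =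
              (1 / kk S T i j - 1 / tt S T i j) ^ 2 := by
            field_simp
            ring
          have := sq_nonneg (1 / kk S T i j - 1 / tt S T i j)
          linarith
        rw [h7]
        refine le_trans ?_ h8
        exact div_le_div_of_nonneg_left (by norm_num) (by positivity) h3
      have h10 : 0 ≤ 1 / kk S T i j + 1 / tt S T i j := by positivity
      exact h4.trans (abs_le_of_sq_le_sq' h6 h10).2
    calc (Fintype.card ι : ℝ) ^ 2 * Real.exp ((-1 / 2 + 1 / 10 ^ 11) * L) =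
        ∑ i : ι, ∑ j : ι, Real.exp ((-1 / 2 + 1 / 10 ^ 11) * L) := by
          rw [Finset.sum_const, Finset.sum_const, Finset.card_univ, nsmul_eq_mul, nsmul_eq_mul]
          ring
      _ ≤ _ := Finset.sum_le_sum fun i _ => Finset.sum_le_sum fun j _ => hpt i j

end Pool.Agent.SGB.H3
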